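import Pool.Agent.NH60.TP.Asm

/-!
MP_588c6d_co: the triangles spanned by `n` points of the plane have at least
`c n ^ (6 / 7) / (log n) ^ 2` distinct perimeters.
-/

set_option autoImplicit false

/-- There is `c > 0` such that every set `P` of `n ≥ 3` points of the Euclidean plane spans
triangles of at least `c n ^ (6 / 7) / (log n) ^ 2` distinct perimeters. -/
theorem Pool.Agent.Results.MP_588c6d_co.SixSevenths.result :
    ∃ c : ℝ, 0 < c ∧ ∀ P : Finset (EuclideanSpace ℝ (Fin 2)), 3 ≤ P.card →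
      c * (P.card : ℝ) ^ ((6 : ℝ) / 7) / Real.log P.card ^ 2 ≤
        ({x : ℝ | ∃ p ∈ P, ∃ q ∈ P, ∃ r ∈ P, p ≠ q ∧ q ≠ r ∧ p ≠ r ∧
          x = dist p q + dist q r + dist r p}.ncard : ℝ) :=
  Pool.Agent.NH60.TP.transfer Pool.Agent.NH60.TP.fin_all
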